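import Pool.Agent.J6H58.MC.Basic
import Pool.Agent.J6H79.BC.NumT

/-!
# Numerations with dyadic numerals

Robinson arithmetic proves the same instances of a formula for the unary and for the dyadic
numerals (by the completeness theorem), the function `z ↦ num (tau P z)` is primitive recursive.
-/

set_option autoImplicit false

namespace Pool.Agent.J6H82.MC

open Pool.Agent.TH672 (Fm Str upd varStr num digits LogK ReplK Sw Pv upd_self upd_same upd_ne
  upd_upd upd_comm)
open Pool.Agent.TH636.BC (Fml Step IsProof str strs Proves code robinson Arith PrRel)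
open Pool.Agent.TH838.J1549 (Q exists_Q sat_cong)
open Pool.Agent.J6H58.MC

variable {S : Str ℕ}

theorem sat_dnum3 (q : Q S) {φ : Fml} (hφ : ∀ x, φ.Free x → x = 2 ∨ x = 3 ∨ x = 4)
    (c m d : ℕ) (v : ℕ → S.M) :
    Fm.Sat S (dnum 2 c (dnum 3 m (dnum 4 d φ))) v ↔
      Fm.Sat S φ (upd (upd (upd v 2 (q.nm c)) 3 (q.nm m)) 4 (q.nm d)) := by
  have h0 : ¬ φ.Free 0 := fun h => by have := hφ 0 h; omega
  have h1 : ¬ φ.Free 1 := fun h => by have := hφ 1 h; omega
  rw [sat_dnum q (by omega) (fun h => h0 (free_dnum (free_dnum h).2).2)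
    (fun h => h1 (free_dnum (free_dnum h).2).2),
    sat_dnum q (by omega) (fun h => h0 (free_dnum h).2) (fun h => h1 (free_dnum h).2),
    sat_dnum q (by omega) h0 h1]

theorem closed_dnum3 {φ : Fml} (hφ : ∀ x, φ.Free x → x = 2 ∨ x = 3 ∨ x = 4)
    (c m d : ℕ) : (dnum 2 c (dnum 3 m (dnum 4 d φ))).Closed := by
  intro x hx
  have h2 := free_dnum hx
  have h3 := free_dnum h2.2
  have h4 := free_dnum h3.2
  have h5 := hφ x h4.2
  have e2 := h2.1
  have e3 := h3.1
  have e4 := h4.1
  omega

/-- From unary to dyadic numerals. -/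
theorem to_dnum {φ : Fml} (hφ : ∀ x, φ.Free x → x = 2 ∨ x = 3 ∨ x = 4) {c m d : ℕ}
    (h : ∃ k, Proves robinson k (TH636.BC.inst 2 c (TH636.BC.inst 3 m (TH636.BC.inst 4 d φ)))) :
    ∃ k, Proves robinson k (dnum 2 c (dnum 3 m (dnum 4 d φ))) := by
  obtain ⟨k, hk⟩ := h
  obtain ⟨π, hπ⟩ := Pool.Agent.TH838.J1549.pv_proof (Pool.Agent.TH690.J100.completeness robinson
    (dnum 2 c (dnum 3 m (dnum 4 d φ))) Pool.Agent.TH838.J1549.closed_robinson
    (closed_dnum3 hφ c m d) fun S v hS => by
      obtain ⟨q⟩ := exists_Q v hS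
      have hS' : ∀ ψ ∈ robinson, ∀ w : ℕ → S.M, Fm.Sat S ψ w := fun ψ hψ w =>
        (sat_cong fun x hx => absurd hx (Pool.Agent.TH838.J1549.closed_robinson ψ hψ x)).1
          (hS ψ hψ)
      have h1 := Pool.Agent.TH197.J1545.sat_proves hS' hk v
      rw [Pool.Agent.TH838.J1549.sat_inst3 q hφ] at h1
      rw [sat_dnum3 q hφ]
      exact h1)
  exact ⟨_, π, hπ, le_rfl⟩

theorem free_neg {φ : Fml} (hφ : ∀ x, φ.Free x → x = 2 ∨ x = 3 ∨ x = 4) :
    ∀ x, φ.neg.Free x → x = 2 ∨ x = 3 ∨ x = 4 := fun x hx => by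
  simp only [Fm.neg, Fm.Free, or_false] at hx
  exact hφ x hx

theorem num_of {P : Fml} (h : Pool.Agent.TH636.BC.Numerates P) : Num P where
  arith := h.arith
  free := h.free
  pos c m d hc := to_dnum h.free (h.pos c m d hc)
  neg c m d hc := to_dnum (free_neg h.free) (h.neg c m d hc)

/-! ### computability -/

theorem digits_primrec : Primrec digits := by
  have h : Primrec₂ (fun (_ : Unit) (n : ℕ) => digits n) := by
    refine Primrec.nat_strong_rec _ (g := fun (_ : Unit) (L : List (List Bool)) =>
      if L.length = 0 then some [] else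
        (L[(L.length - 1) / 2]?).map fun w => w ++ [decide (L.length % 2 = 0)]) ?_ ?_
    · have hl : Primrec fun p : Unit × List (List Bool) => p.2.length :=
        Primrec.list_length.comp Primrec.snd
      refine Primrec.ite (Primrec.eq.comp hl (Primrec.const 0)) (Primrec.const _) ?_
      refine Primrec.option_map ?_ ?_
      · exact Primrec.list_getElem?.comp Primrec.snd
          (Primrec.nat_div.comp (Primrec.nat_sub.comp hl (Primrec.const 1)) (Primrec.const 2))
      · refine Primrec.list_append.comp Primrec.snd ?_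
        refine Primrec.list_cons.comp ?_ (Primrec.const [])
        exact (Primrec.eq.comp (Primrec.nat_mod.comp (hl.comp Primrec.fst) (Primrec.const 2))
          (Primrec.const 0)).decide
    · intro _ n
      simp only [List.length_map, List.length_range]
      by_cases hn : n = 0
      · subst hn
        rw [if_pos rfl, digits]
        simp
      · rw [if_neg hn, digits, dif_neg hn, List.getElem?_map, List.getElem?_range (by omega)]
        rfl
  exact h.comp (Primrec.const ()) Primrec.id

theorem sA_primrec : Primrec sA := by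
  unfold sA
  refine Primrec.list_append.comp (Primrec.list_append.comp (Primrec.const _) ?_) digits_primrec
  exact Primrec.list_flatMap digits_primrec ((Primrec.dom_bool (pd 29)).comp Primrec.snd).to₂

theorem tau_primrec (P : Fml) : Primrec (tau P) := by
  unfold tau
  refine Primrec.list_append.comp (Primrec.list_append.comp (Primrec.list_append.comp
    (Primrec.const _) ?_) (Primrec.const _)) sA_primrec
  exact Primrec.list_flatMap sA_primrec ((Primrec.dom_bool (pd 2)).comp Primrec.snd).to₂

theorem numG_ex (P : Fml) : ∃ G, NumG P G := by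
  have hf : Primrec fun z => num (tau P z) :=
    Pool.Agent.TH554.J1548.num_primrec.comp (tau_primrec P)
  have h7 : PrimrecPred fun x : ℕ × ℕ × ℕ => x.2.1 = num (tau P x.1) :=
    Primrec.eq.comp (Primrec.fst.comp Primrec.snd) (hf.comp Primrec.fst)
  have h : ComputablePred fun x : ℕ × ℕ × ℕ => x.2.1 = num (tau P x.1) := by
    obtain ⟨hd, hp⟩ := h7
    exact ⟨hd, hp.to_comp⟩
  obtain ⟨G, h1, h2, h3, h4⟩ := Pool.Agent.TH838.J1549.repr
    (fun z t _ => t = num (tau P z)) h.to_re h.not.to_re
  exact ⟨G, h1, h2, fun z t d e => to_dnum h2 (h3 z t d e),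
    fun z t d e => to_dnum (free_neg h2) (h4 z t d e)⟩

/-- MODULE 4. -/
theorem exG : ExGT := by
  refine ⟨numG_ex, ?_⟩
  obtain ⟨P, hP⟩ := Pool.Agent.J6H79.BC.numT
  exact ⟨P, num_of hP⟩

end Pool.Agent.J6H82.MC
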